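import Pool.Agent.Helper69.TwoLen.Defs
import Pool.Agent.Helper96.Complexity

/-!
# The data of the scheduling instance are definable
-/

set_option autoImplicit false

namespace Pool.Agent.Helper61.TwoLen

open Classical Pool.Agent.Helper96 Pool.Agent.Helper69.TwoLen

section

variable {f g h nn mm : Inp → (ℕ → ℕ) → ℕ}

theorem def_rr (hn : Def nn) (hf : Def f) : Def fun X v => rr (nn X v) (f X v) :=
  Def.mod (Def.sub hf hn) (Def.add (Def.mul (Def.const 23) hn) (Def.const 4))

theorem def_ph (hn : Def nn) (hf : Def f) : Def fun X v => ph (nn X v) (f X v) :=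
  Def.div (Def.sub hf hn) (Def.add (Def.mul (Def.const 23) hn) (Def.const 4))

theorem def_kind (hn : Def nn) (hf : Def f) : Def fun X v => kind (nn X v) (f X v) := by
  have hr := def_rr hn hf
  have h19 : Def fun X v => 19 * nn X v := Def.mul (Def.const 19) hn
  refine (Def.ite (DefP.lt hf hn) (Def.const 23) (Def.ite (DefP.lt hr (Def.const 2))
    (Def.add (Def.const 24) hr) (Def.ite (DefP.lt hr (Def.add (Def.const 2) h19))
      (Def.mod (Def.sub hr (Def.const 2)) (Def.const 19))
      (Def.ite (DefP.lt hr (Def.add (Def.const 4) h19))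
        (Def.add (Def.const 26) (Def.sub hr (Def.add (Def.const 2) h19)))
        (Def.add (Def.const 19) (Def.mod (Def.sub hr (Def.add (Def.const 4) h19))
          (Def.const 4))))))).congr fun X v => ?_
  unfold kind
  split_ifs <;> rfl

theorem def_wire (hn : Def nn) (hf : Def f) : Def fun X v => wire (nn X v) (f X v) := by
  have hr := def_rr hn hf
  have h19 : Def fun X v => 19 * nn X v := Def.mul (Def.const 19) hn
  refine (Def.ite (DefP.lt hf hn) (Def.sub (Def.sub hn (Def.const 1)) hf)
    (Def.ite (DefP.lt hr (Def.add (Def.const 2) h19))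
      (Def.div (Def.sub hr (Def.const 2)) (Def.const 19))
      (Def.sub (Def.sub hn (Def.const 1)) (Def.div (Def.sub hr (Def.add (Def.const 4) h19))
        (Def.const 4))))).congr fun X v => ?_
  unfold wire
  split_ifs <;> rfl

theorem def_cell (hn : Def nn) (hf : Def f) (hg : Def g) (hh : Def h) :
    Def fun X v => cell (nn X v) (f X v) (g X v) (h X v) :=
  Def.add (Def.add (Def.add (Def.add hn (Def.mul hf
    (Def.add (Def.mul (Def.const 23) hn) (Def.const 4)))) (Def.const 2))
    (Def.mul (Def.const 19) hg)) hh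

theorem def_grp (hn : Def nn) (hf : Def f) (hg : Def g) (hh : Def h) :
    Def fun X v => grp (nn X v) (f X v) (g X v) (h X v) :=
  Def.add (Def.add (Def.add (Def.add (Def.add hn (Def.mul hf
    (Def.add (Def.mul (Def.const 23) hn) (Def.const 4)))) (Def.const 4))
    (Def.mul (Def.const 19) hn)) (Def.mul (Def.const 4) (Def.sub (Def.sub hn (Def.const 1)) hg))) hh

theorem defP_kind (hn : Def nn) (hf : Def f) (k : ℕ) : DefP fun X v => kind (nn X v) (f X v) = k :=
  DefP.eq (def_kind hn hf) (Def.const k)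

theorem def_u0 (hn : Def nn) (hm : Def mm) (hf : Def f) :
    Def fun X v => u0 (nn X v) (mm X v) (f X v) := by
  have hk := defP_kind hn hf
  have hp := def_ph hn hf
  have hw := def_wire hn hf
  refine (Def.ite (hk 0) (Def.add hf (Def.const 4))
    (Def.ite (DefP.or (hk 1) (DefP.or (hk 9) (DefP.or (hk 11) (DefP.or (hk 14) (DefP.or (hk 20)
      (DefP.or (hk 24) (hk 26))))))) (Def.add hf (Def.const 1))
    (Def.ite (hk 6) (Def.add hf (Def.const 10))
    (Def.ite (hk 7) (Def.add hf (Def.const 6))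
    (Def.ite (hk 19) (Def.add hf (Def.const 3))
    (Def.ite (DefP.and (hk 22) (DefP.lt (Def.add hp (Def.const 1)) hm))
      (def_cell hn (Def.add hp (Def.const 1)) hw (Def.const 5))
    (Def.ite (hk 23) (def_cell hn (Def.const 0) hw (Def.const 5)) (Def.const 0)))))))).congr
    fun X v => ?_
  unfold u0
  split_ifs <;> rfl

theorem def_u1 (hn : Def nn) (hm : Def mm) {lit : Inp → (ℕ → ℕ) → ℕ → ℕ → Prop}
    (hl : ∀ {a b : Inp → (ℕ → ℕ) → ℕ}, Def a → Def b → DefP fun X v => lit X v (a X v) (b X v))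
    (hf : Def f) :
    Def fun X v => u1 (nn X v) (mm X v) (lit X v) (f X v) := by
  have hk := defP_kind hn hf
  have hp := def_ph hn hf
  have hw := def_wire hn hf
  refine (Def.ite (DefP.and (hk 0) (DefP.not (hl hw hp))) (Def.add hf (Def.const 5))
    (Def.ite (hk 3) (Def.add hf (Def.const 1))
    (Def.ite (hk 6) (Def.add hf (Def.const 11))
    (Def.ite (hk 7) (Def.add hf (Def.const 9))
    (Def.ite (hk 8) (Def.add hf (Def.const 5))
    (Def.ite (DefP.and (hk 22) (DefP.lt (Def.add hp (Def.const 1)) hm))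
      (def_cell hn (Def.add hp (Def.const 1)) hw (Def.const 18))
    (Def.ite (hk 23) (def_cell hn (Def.const 0) hw (Def.const 18)) (Def.const 0)))))))).congr
    fun X v => ?_
  unfold u1
  split_ifs <;> rfl

theorem def_jp (hn : Def nn) (hf : Def f) : Def fun X v => jp (nn X v) (f X v) := by
  have hk := defP_kind hn hf
  have hp := def_ph hn hf
  have hw := def_wire hn hf
  refine (Def.ite (hk 2) (Def.ite (DefP.eq hw (Def.const 0)) (Def.sub hf (Def.const 4))
      (Def.sub hf (Def.const 7)))
    (Def.ite (hk 3) (Def.add hf (Def.const 7))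
    (Def.ite (hk 10) (Def.sub hf (Def.const 7))
    (Def.ite (hk 11) (def_grp hn hp hw (Def.const 2))
    (Def.ite (hk 14) (Def.ite (DefP.lt (Def.add hw (Def.const 1)) hn) (Def.add hf (Def.const 7))
      (Def.add hf (Def.const 6)))
    (Def.ite (hk 21) (def_cell hn hp hw (Def.const 11))
    (Def.ite (hk 24) (Def.add hf (Def.const 4)) (Def.sub hf (Def.const 6))))))))).congr
    fun X v => ?_
  unfold jp
  split_ifs <;> rfl

theorem def_tp (hn : Def nn) (hf : Def f) : Def fun X v => tp (nn X v) (f X v) := by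
  have hk := defP_kind hn hf
  refine (Def.ite (hk 22) (Def.const 0)
    (Def.ite (DefP.or (hk 2) (DefP.or (hk 3) (DefP.or (hk 10) (DefP.or (hk 11) (DefP.or (hk 14)
      (DefP.or (hk 21) (DefP.or (hk 24) (hk 27)))))))) (Def.const 1)
    (Def.ite (DefP.or (hk 0) (DefP.or (hk 1) (DefP.or (hk 6) (DefP.or (hk 7) (DefP.or (hk 8)
      (DefP.or (hk 9) (DefP.or (hk 19) (DefP.or (hk 20) (DefP.or (hk 23) (hk 26)))))))))) 
      (Def.const 2) (Def.const 3)))).congr fun X v => ?_
  unfold tp
  split_ifs <;> rfl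

theorem def_lk (hn : Def nn) (hf : Def f) : Def fun X v => lk (nn X v) (f X v) := by
  have hk := defP_kind hn hf
  refine (Def.ite (DefP.or (hk 0) (DefP.or (hk 4) (DefP.or (hk 5) (DefP.or (hk 6) (DefP.or (hk 8)
      (DefP.or (hk 12) (DefP.or (hk 15) (DefP.or (hk 17) (DefP.or (hk 19) (DefP.and (hk 23)
      (DefP.eq (Def.mod hf (Def.const 2)) (Def.const 0))))))))))))
      (Def.const 1) (Def.const 0)).congr fun X v => ?_
  unfold lk
  split_ifs <;> rfl

end

/-! ### The program of a formula -/

section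

variable (Φ : CNFData)

/-- The number of wires (one additional variable which occurs nowhere). -/
def NN (X : Inp) : ℕ := 2 * (Φ.n X + 1)

/-- The literals. -/
def LL (X : Inp) (w j : ℕ) : Prop := w / 2 < Φ.n X ∧ Φ.lit X (w / 2) (w % 2) j

/-- The program of the formula. -/
noncomputable def prg (X : Inp) : Prog := prog (NN Φ X) (Φ.m X) (LL Φ X)

variable {Φ} {f g h e : Inp → (ℕ → ℕ) → ℕ}

theorem def_NN : Def fun X _ => NN Φ X :=
  Def.mul (Def.const 2) (Def.add Φ.def_n (Def.const 1))

theorem defP_LL (hf : Def f) (hg : Def g) : DefP fun X v => LL Φ X (f X v) (g X v) := by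
  have h1 : DefP fun X v => Φ.lit X (f X v / 2) (f X v % 2) (g X v) :=
    DefP.subst (P := fun X v => Φ.lit X (v 0) (v 1) (v 2))
      (g := fun i => match i with
        | 0 => fun X v => f X v / 2
        | 1 => fun X v => f X v % 2
        | _ => g) Φ.def_lit fun i => match i with
        | 0 => Def.div hf (Def.const 2)
        | 1 => Def.mod hf (Def.const 2)
        | _ + 2 => hg
  exact DefP.and (DefP.lt (Def.div hf (Def.const 2)) Φ.def_n) h1

theorem def_B : Def fun X _ => (prg Φ X).B :=
  Def.add def_NN (Def.mul Φ.def_m (Def.add (Def.mul (Def.const 23) def_NN) (Def.const 4)))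

theorem def_u (hf : Def f) (hg : Def g) : Def fun X v => (prg Φ X).u (f X v) (g X v) := by
  have h0 := def_u0 (def_NN (Φ := Φ)) Φ.def_m hg
  have h1 := def_u1 (def_NN (Φ := Φ)) Φ.def_m (lit := fun X _ => LL Φ X)
    (fun ha hb => defP_LL ha hb) hg
  refine (Def.ite (DefP.eq hf (Def.const 0)) h0 h1).congr fun X v => ?_
  unfold prg prog
  simp only
  split_ifs <;> rfl

theorem def_J (hf : Def f) : Def fun X v => (prg Φ X).J (f X v) := def_jp def_NN hf

theorem def_ty (hf : Def f) : Def fun X v => (prg Φ X).ty (f X v) := def_tp def_NN hf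

theorem def_nx (hf : Def f) : Def fun X v => (prg Φ X).nx (f X v) := def_lk def_NN hf

theorem def_deg (hf : Def f) : Def fun X v => (prg Φ X).deg (f X v) := by
  have h1 : ∀ i : ℕ, Def fun X v => ((if v 0 < (prg Φ X).u i (v 0) then 1 else 0) +
      ∑ a ∈ Finset.range (prg Φ X).B, if a < v 0 ∧ (prg Φ X).u i a = v 0 then 1 else 0) := by
    intro i
    have h2 : DefP fun X v => v 0 < v 1 ∧ (prg Φ X).u i (v 0) = v 1 :=
      DefP.and (DefP.lt (Def.var 0) (Def.var 1)) (DefP.eq (def_u (Def.const i) (Def.var 0))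
        (Def.var 1))
    have h3 := Def.add (Def.ite (DefP.lt (Def.var 0) (def_u (Φ := Φ) (Def.const i) (Def.var 0)))
      (Def.const 1) (Def.const 0)) (Def.sum (def_B (Φ := Φ)) h2)
    refine h3.congr fun X v => ?_
    congr 1
    · split_ifs <;> rfl
    · apply Finset.sum_congr rfl
      intro a _
      have e1 : cons a v 0 = a := rfl
      have e2 : cons a v 1 = v 0 := rfl
      simp only [e1, e2]
  have h4 : Def fun X v => (prg Φ X).deg (v 0) := by
    refine (Def.add (h1 0) (h1 1)).congr fun X v => ?_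
    unfold Prog.deg
    rw [Finset.sum_range_succ, Finset.sum_range_succ, Finset.sum_range_zero, zero_add]
  exact Def.comp1 (F := fun X b => (prg Φ X).deg b) h4 hf

theorem def_lo (hf : Def f) (hg : Def g) : Def fun X v => (prg Φ X).lo (f X v) (g X v) := by
  have hJ := def_J (Φ := Φ) hf
  have ht := def_ty (Φ := Φ) hf
  have h2 : Def fun X v => 2 * f X v := Def.mul (Def.const 2) hf
  refine (Def.ite (DefP.eq hg (Def.const 2))
    (Def.ite (DefP.eq ht (Def.const 1)) (Def.ite (DefP.lt hf hJ) h2
        (Def.add (Def.mul (Def.const 2) hJ) (Def.const 1)))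
      (Def.ite (DefP.eq ht (Def.const 2)) (Def.add h2 (Def.const 1)) h2))
    (Def.ite (DefP.eq hg (Def.const 3)) (Def.ite (DefP.eq ht (Def.const 0))
      (Def.add h2 (Def.const 1)) (Def.add h2 (Def.sub ht (Def.const 2))))
      (Def.ite (DefP.or (DefP.eq hg (Def.const 4)) (DefP.eq hg (Def.const 5)))
        (Def.add h2 (Def.const 1)) h2))).congr fun X v => ?_
  unfold Prog.lo
  split_ifs <;> rfl

theorem def_hi (hf : Def f) (hg : Def g) : Def fun X v => (prg Φ X).hi (f X v) (g X v) := by
  have hJ := def_J (Φ := Φ) hf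
  have ht := def_ty (Φ := Φ) hf
  have ht1 := def_ty (Φ := Φ) (Def.add hf (Def.const 1))
  have h2 : Def fun X v => 2 * f X v := Def.mul (Def.const 2) hf
  have h2J : Def fun X v => 2 * (prg Φ X).J (f X v) := Def.mul (Def.const 2) hJ
  have hu4 := def_u (Φ := Φ) (Def.sub hg (Def.const 4)) hf
  have hu6 := def_u (Φ := Φ) (Def.sub hg (Def.const 6)) hf
  refine (Def.ite (DefP.eq hg (Def.const 2))
    (Def.ite (DefP.eq ht (Def.const 1)) (Def.ite (DefP.lt hf hJ) (Def.add h2J (Def.const 1)) h2)
      (Def.ite (DefP.eq ht (Def.const 2)) (Def.add h2 (Def.const 1)) h2))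
    (Def.ite (DefP.eq hg (Def.const 3)) (Def.ite (DefP.eq ht (Def.const 0))
      (Def.add h2 (Def.const 1)) (Def.add (Def.mul (Def.const 2) (Def.add hf (Def.const 1)))
        (Def.sub ht1 (Def.const 2))))
      (Def.ite (DefP.or (DefP.eq hg (Def.const 4)) (DefP.eq hg (Def.const 5)))
        (Def.mul (Def.const 2) hu4)
        (Def.ite (DefP.or (DefP.eq hg (Def.const 6)) (DefP.eq hg (Def.const 7)))
          (Def.add (Def.mul (Def.const 2) hu6) (Def.const 1))
          (Def.add h2 (Def.const 1)))))).congr fun X v => ?_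
  unfold Prog.hi
  split_ifs <;> rfl

theorem defP_val (p : ℕ) (hf : Def f) (hg : Def g) :
    DefP fun X v => (prg Φ X).val p (f X v) (g X v) := by
  have ht := def_ty (Φ := Φ) hf
  have hx := def_nx (Φ := Φ) hf
  have hu4 := def_u (Φ := Φ) (Def.sub hg (Def.const 4)) hf
  have hu6 := def_u (Φ := Φ) (Def.sub hg (Def.const 6)) hf
  have hd := def_deg (Φ := Φ) hf
  exact DefP.or (DefP.eq hg (Def.const 2)) (DefP.or (DefP.and (DefP.eq hg (Def.const 3))
    (DefP.or (DefP.eq ht (Def.const 0)) (DefP.eq hx (Def.const 1))))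
    (DefP.or (DefP.and (DefP.or (DefP.eq hg (Def.const 4)) (DefP.eq hg (Def.const 5)))
      (DefP.lt hf hu4))
    (DefP.or (DefP.and (DefP.or (DefP.eq hg (Def.const 6)) (DefP.eq hg (Def.const 7)))
      (DefP.lt hf hu6))
    (DefP.and (DefP.le (Def.const 8) hg) (DefP.lt (Def.add hg hd) (Def.const (p + 8)))))))

theorem def_r (p : ℕ) (hf : Def f) (hg : Def g) : Def fun X v => (prg Φ X).r p (f X v) (g X v) := by
  have h1 : Def fun X v => (2 * f X v + g X v) * (p + 1) :=
    Def.mul (Def.add (Def.mul (Def.const 2) hf) hg) (Def.const (p + 1))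
  refine (Def.ite (DefP.lt hg (Def.const 2)) (Def.add h1 (Def.const p))
    (Def.ite (defP_val (Φ := Φ) p hf hg) (Def.mul (def_lo (Φ := Φ) hf hg) (Def.const (p + 1)))
      (Def.const 0))).congr fun X v => ?_
  unfold Prog.r
  split_ifs <;> rfl

theorem def_d (p : ℕ) (hf : Def f) (hg : Def g) : Def fun X v => (prg Φ X).d p (f X v) (g X v) := by
  have h1 : Def fun X v => (2 * f X v + g X v) * (p + 1) :=
    Def.mul (Def.add (Def.mul (Def.const 2) hf) hg) (Def.const (p + 1))
  refine (Def.ite (DefP.lt hg (Def.const 2)) (Def.add (Def.add h1 (Def.const p)) (Def.const 1))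
    (Def.ite (defP_val (Φ := Φ) p hf hg) (Def.add (Def.mul (def_hi (Φ := Φ) hf hg) (Def.const (p + 1)))
      (Def.const p)) (Def.const 0))).congr fun X v => ?_
  unfold Prog.d
  split_ifs <;> rfl

theorem def_P (p : ℕ) : Def fun (_ : Inp) v => Prog.P p (v 0) := by
  have h1 : Def fun (_ : Inp) v => v 0 % (p + 8) := Def.mod (Def.var 0) (Def.const (p + 8))
  refine (Def.ite (DefP.or (DefP.eq h1 (Def.const 2)) (DefP.eq h1 (Def.const 3))) (Def.const p)
    (Def.const 1)).congr fun X v => ?_
  unfold Prog.P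
  split_ifs <;> rfl

theorem def_R (p : ℕ) : Def fun X v => (prg Φ X).R p (v 0) :=
  def_r p (Def.div (Def.var 0) (Def.const (p + 8))) (Def.mod (Def.var 0) (Def.const (p + 8)))

theorem def_D (p : ℕ) : Def fun X v => (prg Φ X).D p (v 0) :=
  def_d p (Def.div (Def.var 0) (Def.const (p + 8))) (Def.mod (Def.var 0) (Def.const (p + 8)))

end

/-! ### Bounds -/

theorem lo_lt {G : Prog} {p : ℕ} (hG : G.Good p) {b : ℕ} (hb : b < G.B) (i : ℕ) :
    G.lo b i + 1 ≤ 2 * G.B := by
  have h1 := hG.ty_le b hb
  unfold Prog.lo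
  split_ifs with h2 h3 h4 h5 h6 h7 h8
  · omega
  · have := hG.J_lt b hb h3
    omega
  all_goals omega

theorem hi_lt {G : Prog} {p : ℕ} (hG : G.Good p) {b : ℕ} (hb : b < G.B) {i : ℕ}
    (hv : G.val p b i) : G.hi b i + 1 ≤ 2 * G.B := by
  unfold Prog.hi
  split_ifs with h2 h3 h4 h5 h6 h7 h8 h9
  · have := hG.J_lt b hb h3
    omega
  · omega
  · omega
  · omega
  · omega
  · unfold Prog.val at hv
    have h10 : G.nx b = 1 := by
      rcases hv with hv | hv | hv | hv | hv
      · omega
      · exact hv.2.resolve_left h7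
      · omega
      · omega
      · omega
    obtain ⟨h11, h12, h13⟩ := hG.link b hb h10
    have h14 := hG.ty_le (b + 1) h11
    omega
  · have := hG.u_lt (i - 4) (by omega) b hb
    omega
  · have := hG.u_lt (i - 6) (by omega) b hb
    omega
  · omega

theorem bounds {G : Prog} {p : ℕ} (hG : G.Good p) {z : ℕ} (hz : z < G.B * (p + 8)) :
    G.R p z ≤ 2 * G.B * (p + 1) ∧ G.D p z ≤ 2 * G.B * (p + 1) := by
  have hb : z / (p + 8) < G.B := Nat.div_lt_of_lt_mul (by rw [mul_comm]; exact hz)
  have key : ∀ c, c + 1 ≤ 2 * G.B → (c + 1) * (p + 1) ≤ 2 * G.B * (p + 1) := fun c hc =>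
    Nat.mul_le_mul_right _ hc
  unfold Prog.R Prog.D Prog.r Prog.d
  generalize z / (p + 8) = b at hb ⊢
  generalize z % (p + 8) = i
  have h0 : ∀ c, (c + 1) * (p + 1) = c * (p + 1) + p + 1 := fun c => by ring
  constructor
  · split_ifs with h1 h2
    · have := key (2 * b + i) (by omega)
      rw [h0] at this
      omega
    · have := key _ (lo_lt hG hb i)
      rw [h0] at this
      omega
    · omega
  · split_ifs with h1 h2
    · have := key (2 * b + i) (by omega)
      rw [h0] at this
      omega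
    · have := key _ (hi_lt hG hb h2)
      rw [h0] at this
      omega
    · omega

end Pool.Agent.Helper61.TwoLen
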