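import Pool.Agent.Helper61.TwoLen.Defs
import Pool.Agent.Helper61.TwoLen.PartC
import Pool.Agent.Helper69.TwoLen.PartA
import Pool.Agent.Helper69.TwoLen.PartB

/-!
# The combinatorial core: assembly
-/

set_option autoImplicit false

namespace Pool.Agent.Helper61.TwoLen

open Classical Pool.Agent.Helper96 Pool.Agent.Helper69.TwoLen

theorem sat_iff (Φ : CNFData) (X : Inp) : (∃ α, Φ.Sat X α) ↔
    ∃ a : ℕ → ℕ, (∀ i, a i ≤ 1) ∧ ∀ j < Φ.m X, ∃ i < Φ.n X + 1, LL Φ X (2 * i + a i) j := by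
  constructor
  · rintro ⟨α, h⟩
    refine ⟨fun i => if h : i < Φ.n X then (if α ⟨i, h⟩ = true then 1 else 0) else 0, ?_, ?_⟩
    · intro i
      dsimp only
      split_ifs <;> omega
    · intro j hj
      obtain ⟨i, hi⟩ := h j hj
      refine ⟨i, by omega, ?_⟩
      simp only
      rw [dif_pos i.2]
      unfold LL
      by_cases hα : α i = true
      · rw [if_pos hα] at hi ⊢
        have e1 : (2 * (i : ℕ) + 1) / 2 = i := by omega
        have e2 : (2 * (i : ℕ) + 1) % 2 = 1 := by omega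
        rw [e1, e2]
        exact ⟨i.2, hi⟩
      · rw [if_neg hα] at hi ⊢
        have e1 : (2 * (i : ℕ) + 0) / 2 = i := by omega
        have e2 : (2 * (i : ℕ) + 0) % 2 = 0 := by omega
        rw [e1, e2]
        exact ⟨i.2, hi⟩
  · rintro ⟨a, ha, h⟩
    refine ⟨fun i => decide (a i = 1), fun j hj => ?_⟩
    obtain ⟨i, -, h1, h2⟩ := h j hj
    have ha' := ha i
    have e1 : (2 * i + a i) / 2 = i := by omega
    have e2 : (2 * i + a i) % 2 = a i := by omega
    rw [e1] at h1 h2
    rw [e2] at h2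
    refine ⟨⟨i, h1⟩, ?_⟩
    simp only [decide_eq_true_eq]
    split_ifs with h3
    · rwa [h3] at h2
    · have h4 : a i = 0 := by omega
      rwa [h4] at h2

theorem core {p : ℕ} (hp : 4 ≤ p) : Core p := by
  intro Φ
  have hG : ∀ X, (prg Φ X).Good p := fun X =>
    prog_good (Nat.succ_pos _) (Φ.m_pos X) hp
  refine ⟨fun X => (prg Φ X).B * (p + 8), fun X => 2 * (prg Φ X).B * (p + 1),
    fun X => 5 * (prg Φ X).B, fun _ => Prog.P p, fun X => (prg Φ X).R p, fun X => (prg Φ X).D p,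
    Def.mul def_B (Def.const (p + 8)), Def.mul (Def.mul (Def.const 2) def_B) (Def.const (p + 1)),
    Def.mul (Def.const 5) def_B, def_P p, def_R p, def_D p, ?_, ?_⟩
  · intro X z hz
    refine ⟨?_, bounds (hG X) hz⟩
    change Prog.P p z = 1 ∨ Prog.P p z = p
    unfold Prog.P
    split_ifs
    · exact Or.inr rfl
    · exact Or.inl rfl
  · intro X
    rw [Prog.feas_iff (by omega) (hG X), sat_iff]
    exact (prog_sol_iff (Nat.succ_pos _) (Φ.m_pos X)).symm

end Pool.Agent.Helper61.TwoLen
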