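import Pool.Agent.Helper69.TwoLen.Defs
import Pool.Agent.Helper96.Complexity

/-!
# Scheduling with two lengths `1`, `p`: the combinatorial core
-/

set_option autoImplicit false

namespace Pool.Agent.Helper61.TwoLen

open Classical Pool.Agent.Helper96 Pool.Agent.Helper69.TwoLen

/-- The combinatorial statement for the length `p`. -/
def Core (p : ℕ) : Prop := ∀ Φ : CNFData, ∃ (L W K : Inp → ℕ) (P R D : Inp → ℕ → ℕ),
  Def (fun X _ => L X) ∧ Def (fun X _ => W X) ∧ Def (fun X _ => K X) ∧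
  Def (fun X v => P X (v 0)) ∧ Def (fun X v => R X (v 0)) ∧ Def (fun X v => D X (v 0)) ∧
  (∀ X z, z < L X → (P X z = 1 ∨ P X z = p) ∧ R X z ≤ W X ∧ D X z ≤ W X) ∧
  ∀ X, ((∃ α, Φ.Sat X α) ↔ Feas (L X) (K X) (P X) (R X) (D X))

end Pool.Agent.Helper61.TwoLen
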